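import Pool.Agent.R249.Bn.Bound

/-!
# Voronovskaja estimate for complex bivariate Bernstein polynomials on the simplex

For every `f` analytic in the polydisk `|w₁| < R₁`, `|w₂| < R₂` (`R₁, R₂ > 1`) the remainder of
second order is `O(n⁻²)` uniformly on `|w₁| ≤ ρ₁`, `|w₂| ≤ ρ₂`, `1 ≤ ρᵢ < Rᵢ`.
-/

set_option autoImplicit false

open Finset Filter Topology
open scoped Nat

namespace Pool.Agent.Results.MP_814f17_an.Voronovskaja

/-- `f` is analytic on the polydisk `|w₁| < R₁`, `|w₂| < R₂`: it is the sum of a double power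
series which converges at every point of the polydisk. -/
def AnalyticOnPolydisk (R₁ R₂ : ℝ) (f : ℂ → ℂ → ℂ) : Prop :=
  ∃ a : ℕ → ℕ → ℂ, ∀ w₁ w₂ : ℂ, ‖w₁‖ < R₁ → ‖w₂‖ < R₂ →
    HasSum (fun p : ℕ × ℕ => a p.1 p.2 * w₁ ^ p.1 * w₂ ^ p.2) (f w₁ w₂)

/-- The bivariate Bernstein polynomial on the simplex, at complex arguments. -/
noncomputable def bernstein (n : ℕ) (f : ℂ → ℂ → ℂ) (w₁ w₂ : ℂ) : ℂ :=
  ∑ p ∈ (range (n + 1) ×ˢ range (n + 1)).filter (fun p => p.1 + p.2 ≤ n),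
    ((n ! : ℂ) / ((p.1 ! : ℂ) * (p.2 ! : ℂ) * ((n - p.1 - p.2)! : ℂ))) * w₁ ^ p.1 * w₂ ^ p.2
      * (1 - w₁ - w₂) ^ (n - p.1 - p.2) * f ((p.1 : ℂ) / n) ((p.2 : ℂ) / n)

/-- The second partial derivative `f₁₁`. -/
noncomputable def f11 (f : ℂ → ℂ → ℂ) (w₁ w₂ : ℂ) : ℂ :=
  deriv (fun z => deriv (fun u => f u w₂) z) w₁

/-- The second partial derivative `f₁₂`. -/
noncomputable def f12 (f : ℂ → ℂ → ℂ) (w₁ w₂ : ℂ) : ℂ :=
  deriv (fun z => deriv (fun u => f z u) w₂) w₁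

/-- The second partial derivative `f₂₂`. -/
noncomputable def f22 (f : ℂ → ℂ → ℂ) (w₁ w₂ : ℂ) : ℂ :=
  deriv (fun z => deriv (fun u => f w₁ u) z) w₂

/-- The remainder `E_n(f)`. -/
noncomputable def E (n : ℕ) (f : ℂ → ℂ → ℂ) (w₁ w₂ : ℂ) : ℂ :=
  bernstein n f w₁ w₂ - f w₁ w₂ - 1 / (2 * n) *
    (w₁ * (1 - w₁) * f11 f w₁ w₂ - 2 * w₁ * w₂ * f12 f w₁ w₂ + w₂ * (1 - w₂) * f22 f w₁ w₂)

section proof

open Pool.Agent.R249.Bn

lemma bernstein_eq (n : ℕ) (f : ℂ → ℂ → ℂ) (x y : ℂ) :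
    bernstein n f x y = M n x y (fun p q => f ((p : ℂ) / n) ((q : ℂ) / n)) := by
  unfold bernstein M
  rw [Finset.sum_filter, Finset.sum_product]
  refine Finset.sum_congr rfl fun p hp => ?_
  rw [Finset.mem_range] at hp
  have hsub : range (n - p + 1) ⊆ range (n + 1) := by
    intro q hq
    rw [Finset.mem_range] at hq ⊢
    omega
  rw [← Finset.sum_subset hsub]
  · refine Finset.sum_congr rfl fun q hq => ?_
    rw [Finset.mem_range] at hq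
    rw [if_pos (show p + q ≤ n by omega)]
    have h1 : (n.choose p : ℂ) = (n ! : ℂ) / ((p ! : ℂ) * ((n - p)! : ℂ)) :=
      Nat.cast_choose ℂ (by omega)
    have h2 : ((n - p).choose q : ℂ) = ((n - p)! : ℂ) / ((q ! : ℂ) * ((n - p - q)! : ℂ)) :=
      Nat.cast_choose ℂ (by omega)
    have f1 : (p ! : ℂ) ≠ 0 := by exact_mod_cast p.factorial_ne_zero
    have f2 : (q ! : ℂ) ≠ 0 := by exact_mod_cast q.factorial_ne_zero
    have f3 : ((n - p)! : ℂ) ≠ 0 := by exact_mod_cast (n - p).factorial_ne_zero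
    have f4 : ((n - p - q)! : ℂ) ≠ 0 := by exact_mod_cast (n - p - q).factorial_ne_zero
    have h3 : (n.choose p : ℂ) * ((n - p).choose q : ℂ)
        = (n ! : ℂ) / ((p ! : ℂ) * (q ! : ℂ) * ((n - p - q)! : ℂ)) := by
      rw [h1, h2]
      field_simp
    rw [h3]
  · intro q _ hq
    rw [Finset.mem_range] at hq
    rw [if_neg (show ¬ (p + q ≤ n) by omega)]

lemma bdd_aux {q : ℝ} (h0 : 0 < q) (h1 : q < 1) :
    ∃ C : ℝ, 0 ≤ C ∧ ∀ m : ℕ, ((m : ℝ) + 1) ^ 4 * q ^ m ≤ C := by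
  have h := tendsto_pow_const_mul_const_pow_of_abs_lt_one 4 (r := q) (by rw [abs_of_pos h0]; exact h1)
  obtain ⟨B, hB⟩ := h.bddAbove_range
  have hB' : ∀ m : ℕ, (m : ℝ) ^ 4 * q ^ m ≤ B := fun m => hB ⟨m, rfl⟩
  refine ⟨max (B / q) 0, le_max_right _ _, fun m => le_trans ?_ (le_max_left _ _)⟩
  rw [le_div_iff₀ h0]
  have := hB' (m + 1)
  push_cast at this
  calc ((m : ℝ) + 1) ^ 4 * q ^ m * q = ((m : ℝ) + 1) ^ 4 * q ^ (m + 1) := by ring
    _ ≤ B := this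

lemma summable_weight {R₁ R₂ : ℝ} {a : ℕ → ℕ → ℂ} {f : ℂ → ℂ → ℂ}
    (ha : ∀ w₁ w₂ : ℂ, ‖w₁‖ < R₁ → ‖w₂‖ < R₂ →
      HasSum (fun p : ℕ × ℕ => a p.1 p.2 * w₁ ^ p.1 * w₂ ^ p.2) (f w₁ w₂))
    {t₁ t₂ : ℝ} (h1 : 1 ≤ t₁) (h2 : t₁ < R₁) (h3 : 1 ≤ t₂) (h4 : t₂ < R₂) :
    Summable fun p : ℕ × ℕ => ‖a p.1 p.2‖ * ((p.1 : ℝ) + p.2 + 1) ^ 4 * t₁ ^ p.1 * t₂ ^ p.2 := by
  obtain ⟨T₁, hT₁, hT₁'⟩ := exists_between h2
  obtain ⟨T₂, hT₂, hT₂'⟩ := exists_between h4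
  have p1 : 0 < T₁ := by linarith
  have p2 : 0 < T₂ := by linarith
  have q1 : 0 < t₁ := by linarith
  have q2 : 0 < t₂ := by linarith
  have hS : Summable fun p : ℕ × ℕ => ‖a p.1 p.2‖ * T₁ ^ p.1 * T₂ ^ p.2 := by
    have n1 : ‖(T₁ : ℂ)‖ < R₁ := by
      rw [Complex.norm_real, Real.norm_eq_abs, abs_of_pos p1]; exact hT₁'
    have n2 : ‖(T₂ : ℂ)‖ < R₂ := by
      rw [Complex.norm_real, Real.norm_eq_abs, abs_of_pos p2]; exact hT₂'
    have := (ha (T₁ : ℂ) (T₂ : ℂ) n1 n2).summable.norm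
    refine this.congr fun p => ?_
    rw [norm_mul, norm_mul, norm_pow, norm_pow, Complex.norm_real, Complex.norm_real,
      Real.norm_eq_abs, Real.norm_eq_abs, abs_of_pos p1, abs_of_pos p2]
  set q := max (t₁ / T₁) (t₂ / T₂) with hq
  have hq0 : 0 < q := lt_max_of_lt_left (div_pos q1 p1)
  have hq1 : q < 1 := max_lt ((div_lt_one p1).2 hT₁) ((div_lt_one p2).2 hT₂)
  obtain ⟨C, hC0, hC⟩ := bdd_aux hq0 hq1
  refine Summable.of_nonneg_of_le (fun p => by positivity) (fun p => ?_) (hS.mul_left C)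
  have hm := hC (p.1 + p.2)
  push_cast at hm
  have e1 : t₁ ^ p.1 ≤ q ^ p.1 * T₁ ^ p.1 := by
    rw [← mul_pow]
    apply pow_le_pow_left₀ q1.le
    have : t₁ / T₁ ≤ q := le_max_left _ _
    rwa [div_le_iff₀ p1] at this
  have e2 : t₂ ^ p.2 ≤ q ^ p.2 * T₂ ^ p.2 := by
    rw [← mul_pow]
    apply pow_le_pow_left₀ q2.le
    have : t₂ / T₂ ≤ q := le_max_right _ _
    rwa [div_le_iff₀ p2] at this
  calc ‖a p.1 p.2‖ * ((p.1 : ℝ) + p.2 + 1) ^ 4 * t₁ ^ p.1 * t₂ ^ p.2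
      ≤ ‖a p.1 p.2‖ * ((p.1 : ℝ) + p.2 + 1) ^ 4 * (q ^ p.1 * T₁ ^ p.1)
          * (q ^ p.2 * T₂ ^ p.2) := by gcongr
    _ = (((p.1 : ℝ) + p.2 + 1) ^ 4 * q ^ (p.1 + p.2)) * (‖a p.1 p.2‖ * T₁ ^ p.1 * T₂ ^ p.2) := by
        rw [pow_add]; ring
    _ ≤ C * (‖a p.1 p.2‖ * T₁ ^ p.1 * T₂ ^ p.2) := by gcongr

lemma hasSum_deriv_aux {F : ℕ × ℕ → ℂ → ℂ} {u : ℕ × ℕ → ℝ} (hu : Summable u) {t : ℝ}
    (hF : ∀ p, Differentiable ℂ (F p)) (hb : ∀ p, ∀ w, ‖w‖ < t → ‖F p w‖ ≤ u p) {g : ℂ → ℂ}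
    (hg : ∀ w, ‖w‖ < t → HasSum (fun p => F p w) (g w)) {z : ℂ} (hz : ‖z‖ < t) :
    HasSum (fun p => deriv (F p) z) (deriv g z) := by
  have hU : IsOpen (Metric.ball (0 : ℂ) t) := Metric.isOpen_ball
  have hzU : z ∈ Metric.ball (0 : ℂ) t := by rwa [mem_ball_zero_iff]
  have h := Complex.hasSum_deriv_of_summable_norm (F := F) hu
    (fun p => (hF p).differentiableOn) hU
    (fun p w hw => hb p w (by rwa [mem_ball_zero_iff] at hw)) hzU
  have e : g =ᶠ[𝓝 z] fun w => ∑' p, F p w := by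
    filter_upwards [hU.mem_nhds hzU] with w hw
    exact (hg w (by rwa [mem_ball_zero_iff] at hw)).tsum_eq.symm
  rw [e.deriv_eq]
  exact h

lemma deriv_mono (c d : ℂ) (k : ℕ) :
    deriv (fun z : ℂ => c * z ^ k * d) = fun z => c * (k * z ^ (k - 1)) * d := by
  funext z
  have h := ((hasDerivAt_pow k z).const_mul c).mul_const d
  exact h.deriv

lemma deriv_mono' (c : ℂ) (k : ℕ) :
    deriv (fun z : ℂ => c * z ^ k) = fun z => c * (k * z ^ (k - 1)) := by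
  funext z
  exact ((hasDerivAt_pow k z).const_mul c).deriv

lemma deriv_mono2 (c d : ℂ) (k : ℕ) :
    deriv (fun z : ℂ => c * (k * z ^ (k - 1)) * d)
      = fun z => c * (k * (((k - 1 : ℕ) : ℂ) * z ^ (k - 1 - 1))) * d := by
  funext z
  have h := ((((hasDerivAt_pow (k - 1) z).const_mul (k : ℂ)).const_mul c).mul_const d)
  exact h.deriv

lemma deriv_mono2' (c : ℂ) (k : ℕ) :
    deriv (fun z : ℂ => c * (k * z ^ (k - 1)))
      = fun z => c * (k * (((k - 1 : ℕ) : ℂ) * z ^ (k - 1 - 1))) := by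
  funext z
  have h := (((hasDerivAt_pow (k - 1) z).const_mul (k : ℂ)).const_mul c)
  exact h.deriv

lemma pow_pred_le {z : ℂ} {t : ℝ} (ht : 1 ≤ t) (hz : ‖z‖ ≤ t) (k : ℕ) : ‖z‖ ^ (k - 1) ≤ t ^ k :=
  (pow_le_pow_left₀ (norm_nonneg _) hz _).trans (pow_le_pow_right₀ ht (by omega))

lemma weight_facts (k j : ℕ) : (1 : ℝ) ≤ ((k : ℝ) + j + 1) ^ 4 ∧
    (k : ℝ) ≤ ((k : ℝ) + j + 1) ^ 4 ∧ (j : ℝ) ≤ ((k : ℝ) + j + 1) ^ 4 ∧
    ((k : ℝ) + j) ^ 4 ≤ ((k : ℝ) + j + 1) ^ 4 := by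
  have hk : (0 : ℝ) ≤ k := Nat.cast_nonneg k
  have hj : (0 : ℝ) ≤ j := Nat.cast_nonneg j
  have h1 : (1 : ℝ) ≤ (k : ℝ) + j + 1 := by linarith
  have h2 : (k : ℝ) + j + 1 ≤ ((k : ℝ) + j + 1) ^ 4 := by
    simpa using pow_le_pow_right₀ h1 (show 1 ≤ 4 by norm_num)
  refine ⟨by linarith, by linarith, by linarith, ?_⟩
  exact pow_le_pow_left₀ (by linarith) (by linarith) 4

end proof

/-- **Theorem.** For all `R₁, R₂ > 1`, every `f` analytic on the polydisk and all radii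
`1 ≤ ρᵢ < Rᵢ` there is a constant `C` with `‖E_n(f)‖_{ρ₁,ρ₂} ≤ C n⁻²` for every `n ≥ 1`. -/
theorem result (R₁ R₂ : ℝ) (_ : 1 < R₁) (_ : 1 < R₂) (f : ℂ → ℂ → ℂ)
    (hf : AnalyticOnPolydisk R₁ R₂ f) (ρ₁ ρ₂ : ℝ) (h1 : 1 ≤ ρ₁) (h2 : ρ₁ < R₁) (h3 : 1 ≤ ρ₂)
    (h4 : ρ₂ < R₂) :
    ∃ C : ℝ, ∀ n : ℕ, 1 ≤ n → ∀ w₁ w₂ : ℂ, ‖w₁‖ ≤ ρ₁ → ‖w₂‖ ≤ ρ₂ →
      ‖E n f w₁ w₂‖ ≤ C / (n : ℝ) ^ 2 := by
  obtain ⟨a, ha⟩ := hf
  obtain ⟨t₁, ht₁, ht₁'⟩ := exists_between h2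
  obtain ⟨t₂, ht₂, ht₂'⟩ := exists_between h4
  have o1 : 1 ≤ t₁ := h1.trans ht₁.le
  have o2 : 1 ≤ t₂ := h3.trans ht₂.le
  have z1 : 0 ≤ t₁ := by linarith
  have z2 : 0 ≤ t₂ := by linarith
  set u : ℕ × ℕ → ℝ := fun p => ‖a p.1 p.2‖ * ((p.1 : ℝ) + p.2 + 1) ^ 4 * t₁ ^ p.1 * t₂ ^ p.2
    with hu
  have hus : Summable u := summable_weight ha o1 ht₁' o2 ht₂'
  refine ⟨3 * ∑' p, u p, fun n hn x y hx hy => ?_⟩
  have hn0 : (n : ℂ) ≠ 0 := by
    have : n ≠ 0 := by omega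
    exact_mod_cast this
  have hnR : (0 : ℝ) < n := by exact_mod_cast hn
  have hxt : ‖x‖ < t₁ := lt_of_le_of_lt hx ht₁
  have hyt : ‖y‖ < t₂ := lt_of_le_of_lt hy ht₂
  -- general bounds
  have gb : ∀ (p : ℕ × ℕ) (A B c : ℝ), 0 ≤ A → 0 ≤ B → 0 ≤ c → A ≤ t₁ ^ p.1 → B ≤ t₂ ^ p.2 →
      c ≤ ((p.1 : ℝ) + p.2 + 1) ^ 4 → ‖a p.1 p.2‖ * c * A * B ≤ u p := by
    intro p A B c hA hB hc hA' hB' hc'
    simp only [hu]
    have : 0 ≤ ‖a p.1 p.2‖ := norm_nonneg _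
    gcongr
  -- first derivatives in the first variable
  have D1 : ∀ z : ℂ, ‖z‖ < t₁ →
      HasSum (fun p : ℕ × ℕ => a p.1 p.2 * ((p.1 : ℂ) * z ^ (p.1 - 1)) * y ^ p.2)
        (deriv (fun v => f v y) z) := by
    intro z hz
    have h := hasSum_deriv_aux (F := fun p v => a p.1 p.2 * v ^ p.1 * y ^ p.2) hus
      (fun p => by fun_prop) (fun p w hw => by
        have := gb p (‖w‖ ^ p.1) (‖y‖ ^ p.2) 1 (by positivity) (by positivity) zero_le_one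
          (pow_le_pow_left₀ (norm_nonneg _) hw.le _)
          (pow_le_pow_left₀ (norm_nonneg _) hyt.le _) (weight_facts _ _).1
        simpa [norm_mul, norm_pow] using this)
      (g := fun v => f v y) (fun w hw => ha w y (hw.trans ht₁') (hyt.trans ht₂')) hz
    simpa only [deriv_mono] using h
  have D11 : HasSum (fun p : ℕ × ℕ => a p.1 p.2 * ((p.1 : ℂ) * (((p.1 - 1 : ℕ) : ℂ)
      * x ^ (p.1 - 1 - 1))) * y ^ p.2) (f11 f x y) := by
    have h := hasSum_deriv_aux (F := fun p v => a p.1 p.2 * ((p.1 : ℂ) * v ^ (p.1 - 1)) * y ^ p.2)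
      hus (fun p => by fun_prop) (fun p w hw => by
        have := gb p (‖w‖ ^ (p.1 - 1)) (‖y‖ ^ p.2) p.1 (by positivity) (by positivity)
          (by positivity) (pow_pred_le o1 hw.le _)
          (pow_le_pow_left₀ (norm_nonneg _) hyt.le _) (weight_facts _ _).2.1
        simpa [norm_mul, norm_pow, mul_assoc] using this)
      (g := fun z => deriv (fun v => f v y) z) D1 hxt
    unfold f11
    simpa only [deriv_mono2] using h
  -- derivatives in the second variable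
  have D2 : ∀ z v : ℂ, ‖z‖ < t₁ → ‖v‖ < t₂ →
      HasSum (fun p : ℕ × ℕ => a p.1 p.2 * z ^ p.1 * ((p.2 : ℂ) * v ^ (p.2 - 1)))
        (deriv (fun w => f z w) v) := by
    intro z v hz hv
    have h := hasSum_deriv_aux (F := fun p w => a p.1 p.2 * z ^ p.1 * w ^ p.2) hus
      (fun p => by fun_prop) (fun p w hw => by
        have := gb p (‖z‖ ^ p.1) (‖w‖ ^ p.2) 1 (by positivity) (by positivity) zero_le_one
          (pow_le_pow_left₀ (norm_nonneg _) hz.le _)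
          (pow_le_pow_left₀ (norm_nonneg _) hw.le _) (weight_facts _ _).1
        simpa [norm_mul, norm_pow] using this)
      (g := fun w => f z w) (fun w hw => ha z w (hz.trans ht₁') (hw.trans ht₂')) hv
    simpa only [deriv_mono'] using h
  have D22 : HasSum (fun p : ℕ × ℕ => a p.1 p.2 * x ^ p.1 * ((p.2 : ℂ) * (((p.2 - 1 : ℕ) : ℂ)
      * y ^ (p.2 - 1 - 1)))) (f22 f x y) := by
    have h := hasSum_deriv_aux (F := fun p v => a p.1 p.2 * x ^ p.1 * ((p.2 : ℂ) * v ^ (p.2 - 1)))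
      hus (fun p => by fun_prop) (fun p w hw => by
        have := gb p (‖x‖ ^ p.1) (‖w‖ ^ (p.2 - 1)) p.2 (by positivity) (by positivity)
          (by positivity) (pow_le_pow_left₀ (norm_nonneg _) hxt.le _)
          (pow_pred_le o2 hw.le _) (weight_facts _ _).2.2.1
        refine le_trans (le_of_eq ?_) this
        simp only [norm_mul, norm_pow, Complex.norm_natCast]
        ring)
      (g := fun z => deriv (fun v => f x v) z) (fun v hv => D2 x v hxt hv) hyt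
    unfold f22
    simpa only [deriv_mono2'] using h
  have D12 : HasSum (fun p : ℕ × ℕ => a p.1 p.2 * ((p.1 : ℂ) * x ^ (p.1 - 1))
      * ((p.2 : ℂ) * y ^ (p.2 - 1))) (f12 f x y) := by
    have h := hasSum_deriv_aux (F := fun p z => a p.1 p.2 * z ^ p.1 * ((p.2 : ℂ) * y ^ (p.2 - 1)))
      hus (fun p => by fun_prop) (fun p w hw => by
        have := gb p (‖w‖ ^ p.1) (‖y‖ ^ (p.2 - 1)) p.2 (by positivity) (by positivity)
          (by positivity) (pow_le_pow_left₀ (norm_nonneg _) hw.le _)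
          (pow_pred_le o2 hyt.le _) (weight_facts _ _).2.2.1
        refine le_trans (le_of_eq ?_) this
        simp only [norm_mul, norm_pow, Complex.norm_natCast]
        ring)
      (g := fun z => deriv (fun v => f z v) y) (fun z hz => D2 z y hz hyt) hxt
    unfold f12
    simpa only [deriv_mono] using h
  -- the Bernstein polynomial
  have DB : HasSum (fun p : ℕ × ℕ => a p.1 p.2 *
      Pool.Agent.R249.Bn.M n x y (fun k j => ((k : ℂ) / n) ^ p.1 * ((j : ℂ) / n) ^ p.2))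
      (bernstein n f x y) := by
    rw [bernstein_eq]
    unfold Pool.Agent.R249.Bn.M
    have hnode : ∀ k ∈ range (n + 1), ∀ j ∈ range (n - k + 1),
        HasSum (fun p : ℕ × ℕ => (n.choose k : ℂ) * ((n - k).choose j : ℂ) * x ^ k * y ^ j
          * (1 - x - y) ^ (n - k - j) * (a p.1 p.2 * ((k : ℂ) / n) ^ p.1 * ((j : ℂ) / n) ^ p.2))
          ((n.choose k : ℂ) * ((n - k).choose j : ℂ) * x ^ k * y ^ j
          * (1 - x - y) ^ (n - k - j) * f ((k : ℂ) / n) ((j : ℂ) / n)) := by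
      intro k hk j hj
      rw [Finset.mem_range] at hk hj
      apply HasSum.mul_left
      have bd : ∀ m : ℕ, m ≤ n → ‖(m : ℂ) / n‖ ≤ 1 := by
        intro m hm
        rw [norm_div, Complex.norm_natCast, Complex.norm_natCast, div_le_one hnR]
        exact_mod_cast hm
      apply ha
      · exact lt_of_le_of_lt (bd k (by omega)) (by linarith)
      · exact lt_of_le_of_lt (bd j (by omega)) (by linarith)
    have hsum := hasSum_sum (fun k hk => hasSum_sum (fun j hj => hnode k hk j hj))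
    refine hsum.congr_fun ?_
    intro p
    rw [Finset.mul_sum]
    refine Finset.sum_congr rfl fun k _ => ?_
    rw [Finset.mul_sum]
    refine Finset.sum_congr rfl fun j _ => ?_
    ring
  have D0 := ha x y (hxt.trans ht₁') (hyt.trans ht₂')
  have hE : HasSum (fun p : ℕ × ℕ => a p.1 p.2 *
      (Pool.Agent.R249.Bn.M n x y (fun k j => ((k : ℂ) / n) ^ p.1 * ((j : ℂ) / n) ^ p.2)
        - Pool.Agent.R249.Bn.W n x y [] p.1 p.2)) (E n f x y) := by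
    have h := (DB.sub D0).sub ((((D11.mul_left (x * (1 - x))).sub
      (D12.mul_left (2 * x * y))).add (D22.mul_left (y * (1 - y)))).mul_left (1 / (2 * (n : ℂ))))
    unfold E
    refine h.congr_fun ?_
    rintro ⟨k, j⟩
    simp only [Pool.Agent.R249.Bn.W, Pool.Agent.R249.Bn.F, Pool.Agent.R249.Bn.ss,
      Pool.Agent.R249.Bn.al]
    rcases k with _ | _ | k <;> rcases j with _ | _ | j <;> push_cast <;> simp <;> field_simp <;>
      ring
  have hfin := hE.norm_le_of_bounded (g := fun p => 3 / (n : ℝ) ^ 2 * u p)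
    ((hus.hasSum).mul_left (3 / (n : ℝ) ^ 2)) (fun p => by
      rw [norm_mul]
      have h := Pool.Agent.R249.Bn.mono_est n hn o1 o2 hxt.le hyt.le p.1 p.2
      have h5 := (weight_facts p.1 p.2).2.2.2
      calc ‖a p.1 p.2‖ * ‖Pool.Agent.R249.Bn.M n x y
              (fun k j => ((k : ℂ) / n) ^ p.1 * ((j : ℂ) / n) ^ p.2)
              - Pool.Agent.R249.Bn.W n x y [] p.1 p.2‖
          ≤ ‖a p.1 p.2‖ * (3 * ((p.1 : ℝ) + p.2) ^ 4 / n ^ 2 * (t₁ ^ p.1 * t₂ ^ p.2)) := by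
            gcongr
        _ ≤ ‖a p.1 p.2‖ * (3 * ((p.1 : ℝ) + p.2 + 1) ^ 4 / n ^ 2 * (t₁ ^ p.1 * t₂ ^ p.2)) := by
            gcongr
        _ = 3 / (n : ℝ) ^ 2 * u p := by simp only [hu]; ring)
  calc ‖E n f x y‖ ≤ 3 / (n : ℝ) ^ 2 * ∑' p, u p := hfin
    _ = 3 * (∑' p, u p) / (n : ℝ) ^ 2 := by ring

end Pool.Agent.Results.MP_814f17_an.Voronovskaja
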